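import Pool.Agent.Lib.MP_71915d_ag.Curves4

set_option autoImplicit false

namespace Pool.Agent.Results.MP_71915d_ag.CurveFamilies

open Polynomial Pool.Agent.Lib.MP_71915d_ag

/-- Let `S` be a principal ideal domain of characteristic `p` with finite flat Frobenius, for
example `k[y]` for an F-finite field `k`, and let `h_1, …, h_r` be distinct elements of `S`.
For the ideals `(x - h_1), …, (x - h_r)` of `S[x]` (the graphs `x = h_i(y)` in the plane) the box
`[0,M]^r` has for every `M` a rational polyhedral decomposition with mixed test ideals constant on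
the interiors if and only if no three of the curves have a common point and every local
intersection multiplicity of two of the curves is a power of `p`.
In the other case there is, for `M ≥ 1`, not even a finite cover of `[0,M]^r` by closed convex sets
with mixed test ideals constant on their interiors. -/
theorem result (p : ℕ) [Fact p.Prime] (S : Type*) [CommRing S] [IsDomain S]
    [IsPrincipalIdealRing S] [CharP S p]
    (hfin : (frobenius S p).Finite) (hflat : (frobenius S p).Flat)
    (r : ℕ) (h : Fin r → S) (hinj : Function.Injective h) :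
    ((∀ M : ℝ, HasRationalDecomposition
        (mixedTestIdeal p fun i => Ideal.span {(X - C (h i) : S[X])}) M) ↔
      (∀ π : S, Prime π → ∀ i j l, i ≠ j → j ≠ l → i ≠ l →
        ¬ (π ∣ h i - h j ∧ π ∣ h i - h l)) ∧
      (∀ π : S, Prime π → ∀ i j, i ≠ j → π ∣ h i - h j →
        ∃ t : ℕ, π ^ p ^ t ∣ h i - h j ∧ ¬ π ^ (p ^ t + 1) ∣ h i - h j)) ∧
    (¬ ((∀ π : S, Prime π → ∀ i j l, i ≠ j → j ≠ l → i ≠ l →
        ¬ (π ∣ h i - h j ∧ π ∣ h i - h l)) ∧
      (∀ π : S, Prime π → ∀ i j, i ≠ j → π ∣ h i - h j →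
        ∃ t : ℕ, π ^ p ^ t ∣ h i - h j ∧ ¬ π ^ (p ^ t + 1) ∣ h i - h j)) →
      ∀ M : ℝ, 1 ≤ M → NoConvexDecomposition
        (mixedTestIdeal p fun i => Ideal.span {(X - C (h i) : S[X])}) M) := by
  have hS : FrobProj p S := FrobProj.of_flat hfin hflat
  have hI : (mixedTestIdeal p fun i => Ideal.span {(X - C (h i) : S[X])}) = PhiR p h := rfl
  rw [hI]
  have key : ∀ M : ℝ, 1 ≤ M → ¬ NoConvexDecomposition (PhiR p h) M →
      (∀ π : S, Prime π → ∀ i j l, i ≠ j → j ≠ l → i ≠ l →
        ¬ (π ∣ h i - h j ∧ π ∣ h i - h l)) ∧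
      (∀ π : S, Prime π → ∀ i j, i ≠ j → π ∣ h i - h j →
        ∃ t : ℕ, π ^ p ^ t ∣ h i - h j ∧ ¬ π ^ (p ^ t + 1) ∣ h i - h j) := by
    intro M hM hno
    refine ⟨noTriple_of_decomp hS hinj hM hno, fun π hπ i j hij hd => ?_⟩
    obtain ⟨t, u, hu1, hu2⟩ := exact_order hS hinj hM hno hπ hij hd
    refine ⟨t, ⟨u, hu1⟩, ?_⟩
    rintro ⟨w, hw⟩
    apply hu2
    rw [hu1, pow_succ, mul_assoc] at hw
    exact ⟨w, mul_left_cancel₀ (pow_ne_zero _ hπ.ne_zero) hw⟩
  refine ⟨⟨fun hM => key 1 le_rfl fun hno => not_decomposition_of_noConvex hno (hM 1),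
    fun hc M => decomposition_family hS hinj hc.1 hc.2 M⟩, fun hc M hM => ?_⟩
  by_contra hno
  exact hc (key M hM hno)

end Pool.Agent.Results.MP_71915d_ag.CurveFamilies
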