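import Pool.Agent.Lib.MP_71915d_ag.Fin

set_option autoImplicit false

namespace Pool.Agent.Results.MP_71915d_ag.FiniteRegions

open MvPolynomial Pool.Agent.Lib.MP_71915d_ag

/-- Let `k` be a perfect field of characteristic `p`.  If `k` is algebraic over its prime field then
the mixed test ideals of any ideals of `k[x_1,…,x_n]` take only finitely many values on every box.
If `t ∈ k` is transcendental over the prime field, then the mixed test ideals
`τ((x + t y)^a (x y (x + y))^b)` of `k[x,y]` take infinitely many values on `[0,1]^2`, and for no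
finite cover of `[0,1]^2` by closed sets they are constant on the interior of each of the sets. -/
theorem result (p : ℕ) [Fact p.Prime] (k : Type*) [Field k] [PerfectField k] [CharP k p]
    [Algebra (ZMod p) k] :
    (Algebra.IsAlgebraic (ZMod p) k →
      ∀ (n r : ℕ) (I : Fin r → Ideal (MvPolynomial (Fin n) k)) (M : ℝ),
        (mixedTestIdeal p I '' box r M).Finite) ∧
    (∀ t : k, Transcendental (ZMod p) t →
      (mixedTestIdeal p
        (![Ideal.span {X 0 + C t * X 1}, Ideal.span {X 0 * X 1 * (X 0 + X 1)}] :
          Fin 2 → Ideal (MvPolynomial (Fin 2) k)) '' box 2 1).Infinite ∧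
      NoClosedDecomposition (mixedTestIdeal p
        (![Ideal.span {X 0 + C t * X 1}, Ideal.span {X 0 * X 1 * (X 0 + X 1)}] :
          Fin 2 → Ideal (MvPolynomial (Fin 2) k))) 1) := by
  have hp : p.Prime := Fact.out
  have : PerfectRing k p := PerfectField.toPerfectRing p
  constructor
  · intro halg n r I M
    exact finite_of_algebraic halg I M
  · intro t ht
    have ht' : ∀ n, 0 < n → t ^ p ^ n ≠ t := by
      intro n hn h
      apply ht
      refine ⟨Polynomial.X ^ p ^ n - Polynomial.X, ?_, ?_⟩
      · exact FiniteField.X_pow_card_pow_sub_X_ne_zero (ZMod p) hn.ne' hp.one_lt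
      · simp [h]
    obtain ⟨h1, h2⟩ := infinite_perf (p := p) (k := k) hp.two_le t ht'
    have hI : (fun i => Ideal.span {(![lin t, cub 0] : Fin 2 → MvPolynomial (Fin 2) k) i}) =
        ![Ideal.span {X 0 + C t * X 1}, Ideal.span {X 0 * X 1 * (X 0 + X 1)}] := by
      funext i
      fin_cases i
      · rfl
      · simp [cub, lin]
    rw [hI] at h1 h2
    exact ⟨h2, h1⟩

end Pool.Agent.Results.MP_71915d_ag.FiniteRegions
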