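import Pool.Agent.Lib.MP_71915d_ag.Pair4

set_option autoImplicit false

namespace Pool.Agent.Results.MP_71915d_ag.GraphPairs

open Polynomial Pool.Agent.Lib.MP_71915d_ag

/-- Let `S` be a Noetherian ring of characteristic `p` with finite flat Frobenius (by Kunz these are
the regular F-finite rings), let `h ∈ S` be a non zero divisor and let `m` be prime to `p`.
For the two principal ideals `(x)` and `(x^m + h)` of `S[x]` the box `[0,M]^2` has for every `M` a
rational polyhedral decomposition with mixed test ideals constant on the interiors if and only if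
there is one power `p^s` such that all F-jumping numbers `c < 1` of `h` lie in `p^{-s} ℤ`.
In this case the mixed test ideals are constant on all half-open squares of the grid `p^{-s} ℤ^2`;
in the other case there is, for `M ≥ 1`, not even a finite cover of `[0,M]^2` by closed convex sets
with mixed test ideals constant on their interiors. -/
theorem result (p : ℕ) [Fact p.Prime] (S : Type*) [CommRing S] [IsNoetherianRing S] [CharP S p]
    (hfin : (frobenius S p).Finite) (hflat : (frobenius S p).Flat) (h : S)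
    (hh : h ∈ nonZeroDivisors S) (m : ℕ) (hm : ¬ p ∣ m) :
    ((∀ M : ℝ, HasRationalDecomposition
        (mixedTestIdeal p ![Ideal.span {(X : S[X])}, Ideal.span {X ^ m + C h}]) M) ↔
      ∃ s : ℕ, ∀ c : ℝ, FJump p h c → c < 1 → ∃ N : ℕ, c * (p : ℝ) ^ s = N) ∧
    (∀ s : ℕ, (∀ c : ℝ, FJump p h c → c < 1 → ∃ N : ℕ, c * (p : ℝ) ^ s = N) →
      ∀ x y : Fin 2 → ℝ, (∀ i, 0 ≤ x i) → (∀ i, 0 ≤ y i) →
        (∀ i, ⌊x i * (p : ℝ) ^ s⌋₊ = ⌊y i * (p : ℝ) ^ s⌋₊) →
        mixedTestIdeal p ![Ideal.span {(X : S[X])}, Ideal.span {X ^ m + C h}] x =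
          mixedTestIdeal p ![Ideal.span {(X : S[X])}, Ideal.span {X ^ m + C h}] y) ∧
    ((¬ ∃ s : ℕ, ∀ c : ℝ, FJump p h c → c < 1 → ∃ N : ℕ, c * (p : ℝ) ^ s = N) →
      ∀ M : ℝ, 1 ≤ M → NoConvexDecomposition
        (mixedTestIdeal p ![Ideal.span {(X : S[X])}, Ideal.span {X ^ m + C h}]) M) := by
  have hS : FrobProj p S := FrobProj.of_flat hfin hflat
  have hI : mixedTestIdeal p ![Ideal.span {(X : S[X])}, Ideal.span {X ^ m + C h}] =
      Phi p m h := by
    have h1 : (fun i => Ideal.span {FF2 m h i}) =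
        ![Ideal.span {(X : S[X])}, Ideal.span {X ^ m + C h}] := by
      funext i
      fin_cases i <;> rfl
    funext x
    unfold Phi
    rw [h1]
  rw [hI]
  refine ⟨⟨fun hM => ?_, fun ⟨s, hs⟩ M => decomposition_of_padic hS hm hh hs M⟩, ?_, ?_⟩
  · exact exists_denominator hS hm h le_rfl fun hno =>
      not_decomposition_of_noConvex hno (hM 1)
  · intro s hs x y hx hy hxy
    rw [Phi_eq_corner hS hm hh hs x hx, Phi_eq_corner hS hm hh hs y hy, hxy 0, hxy 1]
  · intro hs M hM
    by_contra hno
    exact hs (exists_denominator hS hm h hM hno)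

end Pool.Agent.Results.MP_71915d_ag.GraphPairs
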