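import Pool.Agent.Lib.MP_71915d_ag.Decomp

set_option autoImplicit false

namespace Pool.Agent.Results.MP_71915d_ag.MaximalIdeal

open MvPolynomial Pool.Agent.Lib.MP_71915d_ag

/-- Let `k` be a perfect field of characteristic `p`, let `𝔪 = (x_1,…,x_n)` in `k[x_1,…,x_n]`,
`n ≥ 1`, and let `I_1,…,I_r` be ideals, `I_i` generated by homogeneous polynomials of degree `d_i`.
Then `τ(I_1^{x_1} ⋯ I_r^{x_r} 𝔪^y) = τ(I_1^{x_1} ⋯ I_r^{x_r}) ∩ 𝔪^{⌊∑ d_i x_i + y⌋ + 1 - n}`
for all `x_i, y ≥ 0`.  Hence if the mixed test ideals of `I_1,…,I_r` have rational polyhedral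
decompositions, then so have those of `I_1,…,I_r,𝔪`; in particular this is so for every pair
`(I_1, 𝔪)`. -/
theorem result (p : ℕ) [Fact p.Prime] (k : Type*) [Field k] [PerfectField k] [CharP k p] (n : ℕ)
    (hn : 0 < n) :
    (∀ (r : ℕ) (I : Fin r → Ideal (MvPolynomial (Fin n) k)) (d : Fin r → ℕ),
      (∀ i, HGen (d i) (I i)) →
      (∀ (x : Fin r → ℝ) (y : ℝ), (∀ i, 0 ≤ x i) → 0 ≤ y →
        mixedTestIdeal p
          (Fin.snoc I (idealOfVars (Fin n) k) : Fin (r + 1) → Ideal (MvPolynomial (Fin n) k))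
          (Fin.snoc x y : Fin (r + 1) → ℝ) =
        mixedTestIdeal p I x ⊓
          idealOfVars (Fin n) k ^ (⌊(∑ i, (d i : ℝ) * x i) + y⌋₊ + 1 - n)) ∧
      ((∀ M, HasRationalDecomposition (mixedTestIdeal p I) M) →
        ∀ M, HasRationalDecomposition (mixedTestIdeal p
          (Fin.snoc I (idealOfVars (Fin n) k) : Fin (r + 1) → Ideal (MvPolynomial (Fin n) k))) M)) ∧
    (∀ (I : Ideal (MvPolynomial (Fin n) k)) (d : ℕ), HGen d I → ∀ M,
      HasRationalDecomposition (mixedTestIdeal p ![I, idealOfVars (Fin n) k]) M) := by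
  have hp : p.Prime := Fact.out
  have : PerfectRing k p := PerfectField.toPerfectRing p
  refine ⟨fun r I d hI => ⟨fun x y hx hy => formula hp.two_le hn I d hI x hx y hy,
    fun h M => decomposition_snoc hp.two_le hn I d hI h M⟩, ?_⟩
  intro I d hI M
  have h1 := decomposition_snoc (p := p) hp.two_le hn (fun _ : Fin 1 => I) (fun _ => d)
    (fun _ => hI) (fun M => decomposition_one hp.two_le I M) M
  have h2 : (Fin.snoc (fun _ : Fin 1 => I) (idealOfVars (Fin n) k) :
      Fin (1 + 1) → Ideal (MvPolynomial (Fin n) k)) = ![I, idealOfVars (Fin n) k] := by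
    funext i
    refine Fin.lastCases ?_ (fun i => ?_) i
    · simp only [Fin.snoc_last]; rfl
    · simp only [Fin.snoc_castSucc]
      rw [Subsingleton.elim i 0]
      rfl
  rw [h2] at h1
  exact h1

end Pool.Agent.Results.MP_71915d_ag.MaximalIdeal
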